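import Pool.Agent.Helper79.OC.Asm
import Pool.Agent.Helper79.OC.Alg
import Pool.Agent.Helper79.OC.Norm
import Pool.Agent.Helper79.OC.ReachC
import Pool.Agent.Helper79.OC.ReachS
import Pool.Agent.Helper79.OC.Side
import Pool.Agent.Helper79.OC.Cross
import Pool.Agent.Helper79.OC.Page
import Pool.Agent.Helper79.OC.Pts
import Pool.Agent.Helper79.OC.PathA
import Pool.Agent.Helper79.OC.PathB
import Pool.Agent.Helper79.OC.Path
import Pool.Agent.Helper79.OC.Yes
import Pool.Agent.Helper79.OC.Iso
import Pool.Agent.Helper79.OC.Val
import Pool.Agent.Helper79.OC.TwoP
import Pool.Agent.Helper79.OC.TM

/-!
# Recognition of orthogonal circle intersection graphs is NP-hard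

There is a polynomial-time reduction from the question whether a graph has a book embedding with
two pages (for graphs that stay connected after the removal of any vertex) to the recognition of
orthogonal circle intersection graphs.
-/

set_option autoImplicit false

namespace Pool.Agent.Results.MP_8ec342_lc.RecognitionNPHard

open Turing Pool.Agent.Helper79.OC

/-- There is a map `f` from graphs to graphs, computed in polynomial time by a Turing machine, such
that, for every graph `H` that is connected after the removal of any one vertex, `f H` is an
orthogonal circle intersection graph if and only if `H` has a book embedding with two pages. -/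
theorem result : ∃ f : GI → GI, Nonempty (TM2ComputableInPolyTime GI.code GI.code f) ∧
    ∀ H : GI, (∀ v, (H.graph.induce {v}ᶜ).Connected) →
      (IsOCI (f H).graph ↔ TwoPage H.graph) :=
  final Alg_main Norm_main (Side_main ReachC_main ReachS_main) (Page_main Cross_main)
    (Yes_main (Path_main Pts_main Par_main PathA_main PathB_main) Alg_main) Iso_main Val_main
    TwoP_main TM_main

end Pool.Agent.Results.MP_8ec342_lc.RecognitionNPHard
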